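import Mathlib
import Pool.Agent.Y685.SY.Stm

/-!
Project SY, job SY-COMP: comparison of mean oscillations under a coordinate change.
-/

set_option autoImplicit false
set_option maxSynthPendingDepth 3

open scoped Manifold ContDiff Topology ENNReal
open MeasureTheory Set Metric

namespace Pool.Agent.Y739.SY

open Pool.Agent.Y685.SY

/-- Uniform constants on a compact set. -/
theorem unif {X : Type} [PseudoMetricSpace X] {K : Set X} (hK : IsCompact K)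
    (P : ℝ → ℝ → X → Prop)
    (hmono : ∀ ε ε' c c' x, 0 < ε' → ε' ≤ ε → c ≤ c' → P ε c x → P ε' c' x)
    (hloc : ∀ x ∈ K, ∃ ε > 0, ∃ c, ∃ t ∈ 𝓝 x, ∀ y ∈ t, P ε c y) :
    ∃ ε > 0, ∃ c ≥ 1, ∀ x ∈ K, P ε c x := by
  have h : ∃ ε > 0, ∃ c : ℝ, ∀ x ∈ K, P ε c x := by
    refine hK.induction_on (p := fun s => ∃ ε > 0, ∃ c : ℝ, ∀ x ∈ s, P ε c x) ?_ ?_ ?_ ?_
    · exact ⟨1, one_pos, 1, by simp⟩
    · rintro s t hst ⟨ε, hε, c, h⟩
      exact ⟨ε, hε, c, fun x hx => h x (hst hx)⟩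
    · rintro s t ⟨ε, hε, c, h⟩ ⟨ε', hε', c', h'⟩
      refine ⟨min ε ε', lt_min hε hε', max c c', ?_⟩
      rintro x (hx | hx)
      · exact hmono _ _ _ _ _ (lt_min hε hε') (min_le_left _ _) (le_max_left _ _) (h x hx)
      · exact hmono _ _ _ _ _ (lt_min hε hε') (min_le_right _ _) (le_max_right _ _) (h' x hx)
    · intro x hx
      obtain ⟨ε, hε, c, t, ht, h⟩ := hloc x hx
      exact ⟨t, mem_nhdsWithin_of_mem_nhds ht, ε, hε, c, h⟩
  obtain ⟨ε, hε, c, h⟩ := h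
  exact ⟨ε, hε, max c 1, le_max_right _ _,
    fun x hx => hmono _ _ _ _ _ hε le_rfl (le_max_left _ _) (h x hx)⟩

section

variable {E : Type} [NormedAddCommGroup E] [InnerProductSpace ℝ E] [FiniteDimensional ℝ E]

theorem inv_fderiv {f g : E → E} {U V : Set E} (hU : IsOpen U) (hV : IsOpen V)
    (hf : ContDiffOn ℝ ∞ f U) (hg : ContDiffOn ℝ ∞ g V) (hfU : MapsTo f U V)
    (hgf : ∀ x ∈ U, g (f x) = x) (z : E) (hz : z ∈ U) (u : E) :
    fderiv ℝ g (f z) (fderiv ℝ f z u) = u := by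
  have h1 : HasFDerivAt f (fderiv ℝ f z) z :=
    ((hf.contDiffAt (hU.mem_nhds hz)).differentiableAt (by simp)).hasFDerivAt
  have h2 : HasFDerivAt g (fderiv ℝ g (f z)) (f z) :=
    ((hg.contDiffAt (hV.mem_nhds (hfU hz))).differentiableAt (by simp)).hasFDerivAt
  have h3 := h2.comp z h1
  have h4 : HasFDerivAt (g ∘ f) (ContinuousLinearMap.id ℝ E) z := by
    refine (hasFDerivAt_id z).congr_of_eventuallyEq ?_
    filter_upwards [hU.mem_nhds hz] with x hx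
    exact hgf x hx
  have h5 := h3.unique h4
  exact DFunLike.congr_fun h5 u

/-- The uniform local constants. -/
theorem consts {f g : E → E} {U V : Set E} (hU : IsOpen U) (hV : IsOpen V)
    (hf : ContDiffOn ℝ ∞ f U) (hg : ContDiffOn ℝ ∞ g V) (hfU : MapsTo f U V)
    {K : Set E} (hKU : K ⊆ U) (hK : IsCompact K) :
    ∃ ε > 0, ∃ c ≥ 1, ∀ x ∈ K,
      (∀ z ∈ ball x ε, z ∈ U ∧ ‖fderiv ℝ f z‖ ≤ c ∧ ‖fderiv ℝ g (f z)‖ ≤ c ∧
        |(fderiv ℝ f z).det| ≤ c ∧ ‖fderiv ℝ f z - fderiv ℝ f x‖ ≤ c * dist z x ∧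
        ‖fderiv ℝ g (f z) - fderiv ℝ g (f x)‖ ≤ c * dist z x) ∧
      ∀ y ∈ ball (f x) ε, y ∈ V ∧ dist (g y) (g (f x)) ≤ c * dist y (f x) := by
  apply unif hK (fun ε c x => (∀ z ∈ ball x ε, z ∈ U ∧ ‖fderiv ℝ f z‖ ≤ c ∧
        ‖fderiv ℝ g (f z)‖ ≤ c ∧
        |(fderiv ℝ f z).det| ≤ c ∧ ‖fderiv ℝ f z - fderiv ℝ f x‖ ≤ c * dist z x ∧
        ‖fderiv ℝ g (f z) - fderiv ℝ g (f x)‖ ≤ c * dist z x) ∧
      ∀ y ∈ ball (f x) ε, y ∈ V ∧ dist (g y) (g (f x)) ≤ c * dist y (f x))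
  · rintro ε ε' c c' x - hε hc ⟨h1, h2⟩
    refine ⟨fun z hz => ?_, fun y hy => ?_⟩
    · obtain ⟨a1, a2, a3, a4, a5, a6⟩ := h1 z (ball_subset_ball hε hz)
      have hd : c * dist z x ≤ c' * dist z x := mul_le_mul_of_nonneg_right hc dist_nonneg
      exact ⟨a1, a2.trans hc, a3.trans hc, a4.trans hc, a5.trans hd, a6.trans hd⟩
    · obtain ⟨a1, a2⟩ := h2 y (ball_subset_ball hε hy)
      exact ⟨a1, a2.trans (mul_le_mul_of_nonneg_right hc dist_nonneg)⟩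
  · intro x hx
    have hxU := hKU hx
    have hfx : ContDiffAt ℝ ∞ f x := hf.contDiffAt (hU.mem_nhds hxU)
    have hgx : ContDiffAt ℝ ∞ g (f x) := hg.contDiffAt (hV.mem_nhds (hfU hxU))
    have h11 : (1 : WithTop ℕ∞) + 1 ≤ ((⊤ : ℕ∞) : WithTop ℕ∞) :=
      (WithTop.coe_le_coe.2 (le_top : (1 + 1 : ℕ∞) ≤ ⊤) : (((1 + 1 : ℕ∞)) : WithTop ℕ∞) ≤ _)
    have hF : ContDiffAt ℝ 1 (fderiv ℝ f) x := hfx.fderiv_right h11
    have hG : ContDiffAt ℝ 1 (fderiv ℝ g) (f x) := hgx.fderiv_right h11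
    have hGf : ContDiffAt ℝ 1 (fun z => fderiv ℝ g (f z)) x :=
      hG.comp x (hfx.of_le (by exact_mod_cast le_top))
    have hg1 : ContDiffAt ℝ 1 g (f x) := hgx.of_le (by exact_mod_cast le_top)
    obtain ⟨k1, t1, ht1, hl1⟩ := hF.exists_lipschitzOnWith
    obtain ⟨k2, t2, ht2, hl2⟩ := hGf.exists_lipschitzOnWith
    obtain ⟨k3, t3, ht3, hl3⟩ := hg1.exists_lipschitzOnWith
    have e1 : ∀ᶠ z in 𝓝 x, ‖fderiv ℝ f z‖ < ‖fderiv ℝ f x‖ + 1 :=
      hF.continuousAt.norm.eventually_lt_const (lt_add_one _)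
    have e2 : ∀ᶠ z in 𝓝 x, ‖fderiv ℝ g (f z)‖ < ‖fderiv ℝ g (f x)‖ + 1 :=
      hGf.continuousAt.norm.eventually_lt_const (lt_add_one _)
    have e3 : ∀ᶠ z in 𝓝 x, |(fderiv ℝ f z).det| < |(fderiv ℝ f x).det| + 1 := by
      have h : ContinuousAt (fun z => |(fderiv ℝ f z).det|) x :=
        (ContinuousLinearMap.continuous_det.continuousAt.comp hF.continuousAt).abs
      exact h.eventually_lt_const (lt_add_one _)
    have e0 : ∀ᶠ z in 𝓝 x, z ∈ U := hU.mem_nhds hxU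
    have e4 : ∀ᶠ z in 𝓝 x, z ∈ t1 := ht1
    have e5 : ∀ᶠ z in 𝓝 x, z ∈ t2 := ht2
    have e6 : ∀ᶠ y in 𝓝 (f x), y ∈ V := hV.mem_nhds (hfU hxU)
    have e7 : ∀ᶠ y in 𝓝 (f x), y ∈ t3 := ht3
    obtain ⟨ρ1, hρ1, hb1⟩ := Metric.eventually_nhds_iff_ball.1
      (e0.and (e1.and (e2.and (e3.and (e4.and e5)))))
    obtain ⟨ρ2, hρ2, hb2⟩ := Metric.eventually_nhds_iff_ball.1 (e6.and e7)
    refine ⟨min (ρ1 / 2) (ρ2 / 2), by positivity,
      ‖fderiv ℝ f x‖ + 1 + (‖fderiv ℝ g (f x)‖ + 1) + (|(fderiv ℝ f x).det| + 1) + k1 + k2 + k3,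
      ball x (ρ1 / 2) ∩ f ⁻¹' ball (f x) (ρ2 / 2), ?_, ?_⟩
    · exact Filter.inter_mem (ball_mem_nhds _ (by positivity))
        (hfx.continuousAt.preimage_mem_nhds (ball_mem_nhds _ (by positivity)))
    · rintro y ⟨hy1, hy2⟩
      have n1 := norm_nonneg (fderiv ℝ f x)
      have n2 := norm_nonneg (fderiv ℝ g (f x))
      have n3 := abs_nonneg (fderiv ℝ f x).det
      have n4 : (0 : ℝ) ≤ k1 := k1.2
      have n5 : (0 : ℝ) ≤ k2 := k2.2
      have n6 : (0 : ℝ) ≤ k3 := k3.2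
      have hyb : y ∈ ball x ρ1 := ball_subset_ball (by linarith) hy1
      refine ⟨fun z hz => ?_, fun w hw => ?_⟩
      · have hzb : z ∈ ball x ρ1 := by
          rw [mem_ball] at hz hy1 ⊢
          have h1 := dist_triangle z y x
          have h2 := min_le_left (ρ1 / 2) (ρ2 / 2)
          linarith
        obtain ⟨a1, a2, a3, a4, a5, a6⟩ := hb1 z hzb
        obtain ⟨-, -, -, -, b5, b6⟩ := hb1 y hyb
        have l1 := hl1.dist_le_mul z a5 y b5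
        have l2 := hl2.dist_le_mul z a6 y b6
        rw [dist_eq_norm] at l1 l2
        have hd : 0 ≤ dist z y := dist_nonneg
        refine ⟨a1, by linarith, by linarith, by linarith, l1.trans ?_, l2.trans ?_⟩
        · exact mul_le_mul_of_nonneg_right (by linarith) hd
        · exact mul_le_mul_of_nonneg_right (by linarith) hd
      · have hwb : w ∈ ball (f x) ρ2 := by
          rw [mem_preimage, mem_ball] at hy2
          rw [mem_ball] at hw ⊢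
          have h1 := dist_triangle w (f y) (f x)
          have h2 := min_le_right (ρ1 / 2) (ρ2 / 2)
          linarith
        have hyb2 : f y ∈ ball (f x) ρ2 := ball_subset_ball (by linarith) hy2
        obtain ⟨a1, a2⟩ := hb2 w hwb
        obtain ⟨-, b2⟩ := hb2 (f y) hyb2
        refine ⟨a1, (hl3.dist_le_mul w a2 (f y) b2).trans ?_⟩
        exact mul_le_mul_of_nonneg_right (by linarith) dist_nonneg

/-- The pointwise bound. -/
theorem pointwise {F G F' G' A1 A2 Q : E →L[ℝ] E} {θ1 θ2 : E →L[ℝ] E →L[ℝ] ℝ} {c d s : ℝ}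
    (hc : 1 ≤ c) (hd : |d| ≤ c) (hF : ‖F‖ ≤ c) (hG : ‖G‖ ≤ c) (hF' : ‖F'‖ ≤ c)
    (hFF' : ‖F - F'‖ ≤ c * s) (hGG' : ‖G - G'‖ ≤ c * s) (hs : 0 ≤ s)
    (hFG : ∀ u, F (G u) = u)
    (hθ : ∀ u w, θ1 u w = θ2 (F u) (F w)) (hA : ∀ u, F (A1 u) = A2 (F u)) :
    |d| * (‖θ2‖ * ‖A2 - F'.comp (Q.comp G')‖) ≤
      2 * c ^ 5 * (‖θ1‖ * ‖A1 - Q‖ + ‖Q‖ * s * ‖θ1‖) := by
  have hc0 : 0 ≤ c := by linarith
  have h1 : ‖θ2‖ ≤ c ^ 2 * ‖θ1‖ := by
    refine ContinuousLinearMap.opNorm_le_bound₂ _ (by positivity) fun a b => ?_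
    have e : θ2 a b = θ1 (G a) (G b) := by rw [hθ, hFG, hFG]
    rw [e]
    calc ‖θ1 (G a) (G b)‖ ≤ ‖θ1‖ * ‖G a‖ * ‖G b‖ := θ1.le_opNorm₂ _ _
      _ ≤ ‖θ1‖ * (c * ‖a‖) * (c * ‖b‖) := by
        have g1 : ‖G a‖ ≤ c * ‖a‖ := (G.le_opNorm a).trans (by gcongr)
        have g2 : ‖G b‖ ≤ c * ‖b‖ := (G.le_opNorm b).trans (by gcongr)
        gcongr
      _ = c ^ 2 * ‖θ1‖ * ‖a‖ * ‖b‖ := by ring
  have h2 : A2 - F'.comp (Q.comp G') =
      F.comp ((A1 - Q).comp G) + ((F - F').comp (Q.comp G) + F'.comp (Q.comp (G - G'))) := by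
    ext u
    have e : A2 u = F (A1 (G u)) := by rw [hA, hFG]
    simp only [sub_apply, ContinuousLinearMap.comp_apply,
      add_apply, map_sub, e]
    abel
  have h3 : ‖A2 - F'.comp (Q.comp G')‖ ≤ 2 * c ^ 2 * (‖A1 - Q‖ + ‖Q‖ * s) := by
    rw [h2]
    have t1 : ‖F.comp ((A1 - Q).comp G)‖ ≤ c * (‖A1 - Q‖ * c) :=
      (ContinuousLinearMap.opNorm_comp_le _ _).trans
        (mul_le_mul hF ((ContinuousLinearMap.opNorm_comp_le _ _).trans (by gcongr))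
          (norm_nonneg _) hc0)
    have t2 : ‖(F - F').comp (Q.comp G)‖ ≤ (c * s) * (‖Q‖ * c) :=
      (ContinuousLinearMap.opNorm_comp_le _ _).trans
        (mul_le_mul hFF' ((ContinuousLinearMap.opNorm_comp_le _ _).trans (by gcongr))
          (norm_nonneg _) (by positivity))
    have t3 : ‖F'.comp (Q.comp (G - G'))‖ ≤ c * (‖Q‖ * (c * s)) :=
      (ContinuousLinearMap.opNorm_comp_le _ _).trans
        (mul_le_mul hF' ((ContinuousLinearMap.opNorm_comp_le _ _).trans (by gcongr))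
          (norm_nonneg _) hc0)
    have hn : 0 ≤ ‖A1 - Q‖ := norm_nonneg _
    calc _ ≤ ‖F.comp ((A1 - Q).comp G)‖ +
          (‖(F - F').comp (Q.comp G)‖ + ‖F'.comp (Q.comp (G - G'))‖) :=
          (norm_add_le _ _).trans (by gcongr; exact norm_add_le _ _)
      _ ≤ c * (‖A1 - Q‖ * c) + ((c * s) * (‖Q‖ * c) + c * (‖Q‖ * (c * s))) := by gcongr
      _ ≤ 2 * c ^ 2 * (‖A1 - Q‖ + ‖Q‖ * s) := by nlinarith [mul_nonneg (mul_nonneg hc0 hc0) hn]
  have hn : 0 ≤ ‖A1 - Q‖ := norm_nonneg _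
  calc |d| * (‖θ2‖ * ‖A2 - F'.comp (Q.comp G')‖)
      ≤ c * ((c ^ 2 * ‖θ1‖) * (2 * c ^ 2 * (‖A1 - Q‖ + ‖Q‖ * s))) := by gcongr
    _ = 2 * c ^ 5 * (‖θ1‖ * ‖A1 - Q‖ + ‖Q‖ * s * ‖θ1‖) := by ring

end

variable (E : Type) [NormedAddCommGroup E] [InnerProductSpace ℝ E] [FiniteDimensional ℝ E]
  [MeasurableSpace E] [BorelSpace E]

theorem t_COMP : S_COMP E := by
  intro f g U V hU hV hf hg hfU hgV hgf hfg θ₁ θ₂ A₁ A₂ hθm hAm hθ hA K hKU hK
  obtain ⟨ε, hε, c, hc, hcon⟩ := consts hU hV hf hg hfU hKU hK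
  have hc0 : 0 < c := by linarith
  refine ⟨c, hc, 2 * c ^ 5, by positivity, fun L' hL' => ?_⟩
  have hL0 : 0 < L' := by linarith
  refine ⟨ε / L', by positivity, fun r hr hrδ x hx Q => ?_⟩
  have hLr : L' * r < ε := by
    rw [lt_div_iff₀ hL0] at hrδ
    linarith
  have hrε : r < ε := by nlinarith
  obtain ⟨hc1, hc2⟩ := hcon x hx
  have hxU := hKU hx
  have hWo : IsOpen (U ∩ f ⁻¹' ball (f x) r) := hf.continuousOn.isOpen_inter_preimage hU isOpen_ball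
  have hinj : InjOn f (U ∩ f ⁻¹' ball (f x) r) := by
    intro a ha b hb hab
    rw [← hgf a ha.1, ← hgf b hb.1, hab]
  have himg : f '' (U ∩ f ⁻¹' ball (f x) r) = ball (f x) r := by
    apply Subset.antisymm
    · rintro _ ⟨z, hz, rfl⟩
      exact hz.2
    · intro y hy
      have hyV : y ∈ V := (hc2 y (ball_subset_ball hrε.le hy)).1
      refine ⟨g y, ⟨hgV hyV, ?_⟩, hfg y hyV⟩
      rw [mem_preimage, hfg y hyV]
      exact hy
  have hWb : U ∩ f ⁻¹' ball (f x) r ⊆ ball x (L' * r) := by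
    rintro z ⟨hz1, hz2⟩
    have h1 := (hc2 (f z) (ball_subset_ball hrε.le hz2)).2
    rw [hgf z hz1, hgf x hxU] at h1
    rw [mem_preimage, mem_ball] at hz2
    rw [mem_ball]
    calc dist z x ≤ c * dist (f z) (f x) := h1
      _ < c * r := by gcongr
      _ ≤ L' * r := by gcongr
  have hbU : ball x (L' * r) ⊆ U := fun z hz => (hc1 z (ball_subset_ball hLr.le hz)).1
  have hder : ∀ z ∈ U ∩ f ⁻¹' ball (f x) r,
      HasFDerivWithinAt f (fderiv ℝ f z) (U ∩ f ⁻¹' ball (f x) r) z := fun z hz =>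
    ((hf.contDiffAt (hU.mem_nhds hz.1)).differentiableAt (by simp)).hasFDerivAt.hasFDerivWithinAt
  have key := lintegral_image_eq_lintegral_abs_det_fderiv_mul (volume : Measure E)
    hWo.measurableSet hder hinj
    (fun y => ‖θ₂ y‖ₑ * ‖A₂ y - (fderiv ℝ f x).comp (Q.comp (fderiv ℝ g (f x)))‖ₑ)
  rw [himg] at key
  rw [key]
  have hθb : AEMeasurable (fun z => ENNReal.ofReal (‖Q‖ * (L' * r)) * ‖θ₁ z‖ₑ)
      (volume.restrict (ball x (L' * r))) :=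
    ((hθm.mono_set hbU).enorm).const_mul _
  calc ∫⁻ z in U ∩ f ⁻¹' ball (f x) r, ENNReal.ofReal |(fderiv ℝ f z).det| *
        (‖θ₂ (f z)‖ₑ * ‖A₂ (f z) - (fderiv ℝ f x).comp (Q.comp (fderiv ℝ g (f x)))‖ₑ)
      ≤ ∫⁻ z in U ∩ f ⁻¹' ball (f x) r, ENNReal.ofReal (2 * c ^ 5) *
        (‖θ₁ z‖ₑ * ‖A₁ z - Q‖ₑ + ENNReal.ofReal (‖Q‖ * (L' * r)) * ‖θ₁ z‖ₑ) := by
        refine setLIntegral_mono' hWo.measurableSet fun z hz => ?_
        have hzb := hWb hz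
        obtain ⟨a1, a2, a3, a4, a5, a6⟩ := hc1 z (ball_subset_ball hLr.le hzb)
        obtain ⟨-, b2, -⟩ := hc1 x (mem_ball_self hε)
        have hzd : dist z x ≤ L' * r := (mem_ball.1 hzb).le
        have hFG : ∀ u, fderiv ℝ f z (fderiv ℝ g (f z) u) = u := by
          intro u
          have h := inv_fderiv hV hU hg hf hgV hfg (f z) (hfU hz.1) u
          rwa [hgf z hz.1] at h
        have hp := pointwise (F := fderiv ℝ f z) (G := fderiv ℝ g (f z)) (F' := fderiv ℝ f x)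
          (G' := fderiv ℝ g (f x)) (A1 := A₁ z) (A2 := A₂ (f z)) (Q := Q) (θ1 := θ₁ z)
          (θ2 := θ₂ (f z)) (c := c) (d := (fderiv ℝ f z).det) (s := L' * r) hc a4 a2 a3 b2
          (a5.trans (by gcongr)) (a6.trans (by gcongr)) (by positivity) hFG (hθ z hz.1)
          (hA z hz.1)
        have hp2 := ENNReal.ofReal_le_ofReal hp
        rw [ENNReal.ofReal_mul (abs_nonneg _), ENNReal.ofReal_mul (norm_nonneg _),
          ENNReal.ofReal_mul (p := 2 * c ^ 5) (by positivity),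
          ENNReal.ofReal_add (by positivity) (by positivity),
          ENNReal.ofReal_mul (norm_nonneg _),
          ENNReal.ofReal_mul (p := ‖Q‖ * (L' * r)) (q := ‖θ₁ z‖) (by positivity)] at hp2
        simp only [ofReal_norm] at hp2
        exact hp2
    _ ≤ ∫⁻ z in ball x (L' * r), ENNReal.ofReal (2 * c ^ 5) *
        (‖θ₁ z‖ₑ * ‖A₁ z - Q‖ₑ + ENNReal.ofReal (‖Q‖ * (L' * r)) * ‖θ₁ z‖ₑ) :=
        lintegral_mono_set hWb
    _ = ENNReal.ofReal (2 * c ^ 5) * ((∫⁻ z in ball x (L' * r), ‖θ₁ z‖ₑ * ‖A₁ z - Q‖ₑ)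
            + ENNReal.ofReal (‖Q‖ * (L' * r)) * ∫⁻ z in ball x (L' * r), ‖θ₁ z‖ₑ) := by
        rw [lintegral_const_mul' _ _ ENNReal.ofReal_ne_top, lintegral_add_right' _ hθb,
          lintegral_const_mul' _ _ ENNReal.ofReal_ne_top]

end Pool.Agent.Y739.SY
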